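import Pool.Agent.AT3.Stmts1
import Pool.Agent.Helper3_K9.Lbd
import Pool.Agent.Helper25_K9.ROT
import Pool.Agent.Helper25_KF.Idm
import Pool.Agent.Helper48_KF.Trm
import Pool.Agent.Helper27_K9.PRT

/-!
# AT3, row LRK: the number of modular characters as a character sum
-/

open scoped BigOperators

noncomputable section

namespace Pool.Agent.PP.T3.H43

open Pool.Agent.Helper51_AWC Pool.Agent.Helper79_WRA Pool.Agent.PP Pool.Agent.PP.KF
open Pool.Agent.PP.K9 Pool.Agent.PP.K9.H97 Pool.Agent.PP.H75 Pool.Agent.PP.T3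

attribute [local instance] Ideal.Quotient.field

set_option linter.unusedSectionVars false

section cls

variable (ℓ : ℕ) (G : Type) [Group G]

/-- the regular classes -/
abbrev Kr : Type := {c : ConjClasses G // Reg ℓ (Quotient.out c)}

variable {ℓ G}

theorem mk_out (c : ConjClasses G) : ConjClasses.mk (Quotient.out c) = c := Quotient.out_eq c

theorem reg_conj {x y : G} (h : IsConj x y) : Reg ℓ x ↔ Reg ℓ y := by
  obtain ⟨c, rfl⟩ := isConj_iff.1 h
  unfold Reg
  rw [show c * x * c⁻¹ = MulAut.conj c x from rfl, MulEquiv.orderOf_eq]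

theorem reg_out (x : G) : Reg ℓ (Quotient.out (ConjClasses.mk x)) ↔ Reg ℓ x :=
  reg_conj (ConjClasses.mk_eq_mk_iff_isConj.1 (mk_out _))

theorem cl_out {F : Type} {f : G → F} (hf : ∀ x y, f (y * x * y⁻¹) = f x) (x : G) :
    f (Quotient.out (ConjClasses.mk x)) = f x := by
  have h : IsConj x (Quotient.out (ConjClasses.mk x)) :=
    (ConjClasses.mk_eq_mk_iff_isConj.1 (mk_out _)).symm
  obtain ⟨c, hc⟩ := isConj_iff.1 h
  rw [← hc, hf]

variable [Fintype G]

open Classical in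
/-- sums over the classes -/
theorem sum_kr {F : Type} [AddCommMonoid F] [Fintype (Kr ℓ G)] (f : G → Kr ℓ G → F) :
    ∑ K : Kr ℓ G, ∑ y : G, (if ConjClasses.mk y = K.1 then f y K else 0) =
      ∑ y : G, if h : Reg ℓ y then f y ⟨ConjClasses.mk y, (reg_out y).2 h⟩ else 0 := by
  rw [Finset.sum_comm]
  refine Finset.sum_congr rfl fun y _ => ?_
  by_cases h : Reg ℓ y
  · rw [dif_pos h, Finset.sum_eq_single_of_mem ⟨ConjClasses.mk y, (reg_out y).2 h⟩
      (Finset.mem_univ _), if_pos rfl]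
    intro K _ hK
    rw [if_neg]
    intro h'
    exact hK (Subtype.ext h'.symm)
  · rw [dif_neg h]
    refine Finset.sum_eq_zero fun K _ => ?_
    rw [if_neg]
    intro h'
    apply h
    have := K.2
    rw [← h'] at this
    exact (reg_out y).1 this

end cls

section cx

variable {G : Type} [Group G] [Fintype G] {M : Ideal (integralClosure ℤ ℂ)} [M.IsMaximal]

theorem mk_conj (x y : G) : ConjClasses.mk (y * x * y⁻¹) = ConjClasses.mk x :=
  ConjClasses.mk_eq_mk_iff_isConj.2 (isConj_iff.2 ⟨y, rfl⟩).symm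

open Classical in
/-- an eigenvalue identity -/
theorem irr_cls {ψ : G → ℂ} (hψ : ψ ∈ Irr G) (L : ConjClasses G) (x : G) :
    ψ 1 * ∑ y : G, (if ConjClasses.mk y = L then ψ (x * y⁻¹) else 0) =
      (∑ y : G, if ConjClasses.mk y = L then ψ y⁻¹ else 0) * ψ x := by
  have h1 := H94.eig_conv hψ (A := fun t => if ConjClasses.mk t⁻¹ = L then 1 else 0) (by
    intro g h
    have e : (h * g * h⁻¹)⁻¹ = h * g⁻¹ * h⁻¹ := by group
    simp only [e, mk_conj]) x
  have h2 := irr_one_ne hψ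
  have h3 : ∑ y : G, (if ConjClasses.mk y = L then ψ (x * y⁻¹) else 0) =
      ∑ t : G, (if ConjClasses.mk t⁻¹ = L then (1 : ℂ) else 0) * ψ (t * x) := by
    rw [← Equiv.sum_comp (Equiv.inv G)]
    refine Finset.sum_congr rfl fun t _ => ?_
    simp only [Equiv.inv_apply, inv_inv, ite_mul, one_mul, zero_mul]
    rw [irr_mul_comm hψ]
  have h4 : ∑ y : G, (if ConjClasses.mk y = L then ψ y⁻¹ else 0) =
      ∑ t : G, (if ConjClasses.mk t⁻¹ = L then (1 : ℂ) else 0) * ψ t := by
    rw [← Equiv.sum_comp (Equiv.inv G)]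
    refine Finset.sum_congr rfl fun t _ => ?_
    simp only [Equiv.inv_apply, inv_inv, ite_mul, one_mul, zero_mul]
  rw [h3, h4, h1, wC]
  field_simp

open Classical in
/-- sums of the coefficients of the lift over a translate of a class -/
theorem eh_cls (e : G → FF M) (L : ConjClasses G) (x : G) :
    ∑ t : G, (if ConjClasses.mk (t * x) = L then eh M e t else 0) =
      K9.H25.pj (K9.H25.irrE_finite M e).toFinset
        (fun y => if ConjClasses.mk y = L then 1 else 0) x := by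
  rw [K9.H25.pj_apply, ← Equiv.sum_comp (Equiv.mulRight x⁻¹)]
  simp only [Equiv.coe_mulRight, inv_mul_cancel_right, ite_mul, one_mul, zero_mul]
  have h1 : ∀ y : G, (if ConjClasses.mk y = L then eh M e (y * x⁻¹) else 0) =
      (Fintype.card G : ℂ)⁻¹ * ∑ χ ∈ (K9.H25.irrE_finite M e).toFinset,
        χ 1 * (if ConjClasses.mk y = L then χ (x * y⁻¹) else 0) := by
    intro y
    by_cases h : ConjClasses.mk y = L
    · simp only [if_pos h]
      rw [KF.H25.eh_eq, mul_inv_rev, inv_inv]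
    · simp only [if_neg h, mul_zero, Finset.sum_const_zero]
  have h2 : ∀ y : G, (if ConjClasses.mk y = L then
      ∑ χ ∈ (K9.H25.irrE_finite M e).toFinset, χ y⁻¹ * χ x else 0) =
      ∑ χ ∈ (K9.H25.irrE_finite M e).toFinset,
        (if ConjClasses.mk y = L then χ y⁻¹ else 0) * χ x := by
    intro y
    by_cases h : ConjClasses.mk y = L
    · simp only [if_pos h]
    · simp only [if_neg h, zero_mul, Finset.sum_const_zero]
  simp only [h1, h2]
  rw [← Finset.mul_sum, Finset.sum_comm, Finset.sum_comm (s := Finset.univ)]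
  congr 1
  refine Finset.sum_congr rfl fun χ hχ => ?_
  have h3 : χ ∈ Irr G := ((K9.H25.irrE_finite M e).mem_toFinset.1 hχ).1
  rw [← Finset.mul_sum, irr_cls h3, Finset.sum_mul]

variable (M) in
open Classical in
/-- the matrix of the idempotent on the class functions on the regular elements -/
def AC (ℓ : ℕ) (e : G → FF M) : Matrix (Kr ℓ G) (Kr ℓ G) ℂ := fun K L =>
  ∑ t : G, (if ConjClasses.mk (t * Quotient.out K.1) = L.1 then eh M e t else 0)

open Classical in
/-- the same for an arbitrary function -/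
def AF {F : Type} [Field F] (ℓ : ℕ) (e : G → F) : Matrix (Kr ℓ G) (Kr ℓ G) F := fun K L =>
  ∑ t : G, (if ConjClasses.mk (t * Quotient.out K.1) = L.1 then e t else 0)

theorem AC_mem {ℓ : ℕ} {e : G → FF M} (he : IsIdem e) (K L : Kr ℓ G) :
    AC M ℓ e K L ∈ RM M ∧ rr M (AC M ℓ e K L) = AF ℓ e K L := by
  classical
  have h1 := (KF.H25.idm M G e he).1
  have h2 : ∀ t : G, (if ConjClasses.mk (t * Quotient.out K.1) = L.1 then eh M e t else 0) ∈ RM M := by
    intro t
    split_ifs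
    · exact (h1 t).1
    · exact (RM M).zero_mem
  refine ⟨Subring.sum_mem _ fun t _ => h2 t, ?_⟩
  unfold AC AF
  rw [rr_sum _ _ fun t _ => h2 t]
  refine Finset.sum_congr rfl fun t _ => ?_
  split_ifs
  · exact (h1 t).2
  · exact rr_zero

theorem AC_sq (rot : RotStmt) {ℓ : ℕ} [Fact ℓ.Prime]
    (hM : (ℓ : integralClosure ℤ ℂ) ∈ M) {e : G → FF M} (he : IsIdem e) [Fintype (Kr ℓ G)] :
    AC M ℓ e * AC M ℓ e = AC M ℓ e := by
  classical
  obtain ⟨S, hSdef⟩ : ∃ S, S = (K9.H25.irrE_finite M e).toFinset := ⟨_, rfl⟩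
  have hSc : (S : Set (G → ℂ)) = IrrE M e := by rw [hSdef, Set.Finite.coe_toFinset]
  have hS : ∀ ψ ∈ S, ψ ∈ Irr G := fun ψ hψ => by
    rw [hSdef, Set.Finite.mem_toFinset] at hψ
    exact hψ.1
  have hA : ∀ (K L : Kr ℓ G), AC M ℓ e K L =
      K9.H25.pj S (fun y => if ConjClasses.mk y = L.1 then 1 else 0) (Quotient.out K.1) := by
    intro K L
    rw [hSdef, ← eh_cls]
    rfl
  ext K N
  rw [Matrix.mul_apply]
  set f : G → ℂ := K9.H25.pj S (fun y => if ConjClasses.mk y = N.1 then 1 else 0) with hf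
  have hfm : f ∈ Submodule.span ℂ (S : Set (G → ℂ)) := K9.H25.pj_mem _ _
  have hfc : ∀ x y, f (y * x * y⁻¹) = f x := by
    intro x y
    rw [hf, K9.H25.pj_apply, K9.H25.pj_apply]
    congr 1
    refine Finset.sum_congr rfl fun z _ => ?_
    congr 1
    refine Finset.sum_congr rfl fun ψ hψ => ?_
    rw [irr_conj (hS ψ hψ)]
  set h : G → ℂ := fun g => if Reg ℓ g then f g else 0 with hh
  have hhm : h ∈ Submodule.span ℂ (S : Set (G → ℂ)) := by
    rw [hSc] at hfm ⊢
    exact (rot ℓ M hM G e he).1 f hfm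
  have h1 := K9.H25.pj_span hS hhm
  have h2 : ∑ L : Kr ℓ G, AC M ℓ e K L * AC M ℓ e L N = K9.H25.pj S h (Quotient.out K.1) := by
    have e1 : ∀ L : Kr ℓ G, AC M ℓ e K L * AC M ℓ e L N = ∑ y : G,
        (if ConjClasses.mk y = L.1 then (Fintype.card G : ℂ)⁻¹ *
          (f (Quotient.out L.1) * ∑ ψ ∈ S, ψ y⁻¹ * ψ (Quotient.out K.1)) else 0) := by
      intro L
      rw [hA K L, hA L N, ← hf, K9.H25.pj_apply, mul_assoc, Finset.sum_mul, Finset.mul_sum]
      refine Finset.sum_congr rfl fun y _ => ?_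
      by_cases hy : ConjClasses.mk y = L.1
      · simp only [if_pos hy]
        ring
      · simp only [if_neg hy, zero_mul, mul_zero]
    rw [Finset.sum_congr rfl fun L _ => e1 L, sum_kr (fun y L => (Fintype.card G : ℂ)⁻¹ *
          (f (Quotient.out L.1) * ∑ ψ ∈ S, ψ y⁻¹ * ψ (Quotient.out K.1))),
      K9.H25.pj_apply, Finset.mul_sum]
    refine Finset.sum_congr rfl fun y _ => ?_
    by_cases hy : Reg ℓ y
    · rw [dif_pos hy, hh]
      simp only [if_pos hy]
      rw [cl_out hfc]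
    · rw [dif_neg hy, hh]
      simp only [if_neg hy, zero_mul, mul_zero]
  rw [h2, h1, hh, hA K N]
  simp only [if_pos K.2]
  rfl

theorem AC_trace {ℓ : ℕ} (e : G → FF M) [Fintype (Kr ℓ G)] :
    (AC M ℓ e).trace = (Nat.card G : ℂ)⁻¹ *
      ∑ᶠ (s : G) (_ : Reg ℓ s), ∑ᶠ χ ∈ IrrE M e, χ s * starRingEnd ℂ (χ s) := by
  classical
  obtain ⟨S, hSdef⟩ : ∃ S, S = (K9.H25.irrE_finite M e).toFinset := ⟨_, rfl⟩
  have hS : ∀ ψ ∈ S, ψ ∈ Irr G := fun ψ hψ => by
    rw [hSdef, Set.Finite.mem_toFinset] at hψ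
    exact hψ.1
  have e1 : ∀ L : Kr ℓ G, AC M ℓ e L L = ∑ y : G,
      (if ConjClasses.mk y = L.1 then (Fintype.card G : ℂ)⁻¹ *
        ∑ ψ ∈ S, ψ y⁻¹ * ψ (Quotient.out L.1) else 0) := by
    intro L
    rw [show AC M ℓ e L L = K9.H25.pj S
      (fun y => if ConjClasses.mk y = L.1 then 1 else 0) (Quotient.out L.1) by
        rw [hSdef, ← eh_cls]; rfl, K9.H25.pj_apply, Finset.mul_sum]
    refine Finset.sum_congr rfl fun y _ => ?_
    by_cases hy : ConjClasses.mk y = L.1
    · simp only [if_pos hy, one_mul]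
    · simp only [if_neg hy, zero_mul, mul_zero]
  unfold Matrix.trace
  simp only [Matrix.diag_apply]
  rw [Finset.sum_congr rfl fun L _ => e1 L, sum_kr (fun y L => (Fintype.card G : ℂ)⁻¹ *
          ∑ ψ ∈ S, ψ y⁻¹ * ψ (Quotient.out L.1)), finsum_eq_sum_of_fintype,
    Nat.card_eq_fintype_card, Finset.mul_sum]
  refine Finset.sum_congr rfl fun y _ => ?_
  by_cases hy : Reg ℓ y
  · rw [dif_pos hy, finsum_eq_if, if_pos hy, finsum_mem_eq_finite_toFinset_sum _
      (K9.H25.irrE_finite M e), ← hSdef]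
    congr 1
    refine Finset.sum_congr rfl fun ψ hψ => ?_
    rw [cl_out (fun x y => irr_conj (hS ψ hψ) x y), H94.irr_star (hS ψ hψ), mul_comm]
  · rw [dif_neg hy, finsum_eq_if, if_neg hy, mul_zero]

end cx

section mod

variable {F : Type} [Field F] {G : Type} [Group G] [Fintype G] {ℓ : ℕ}

/-- values at the regular classes -/
def Rs (ℓ : ℕ) : (G → F) →ₗ[F] (Kr ℓ G → F) where
  toFun f K := f (Quotient.out K.1)
  map_add' _ _ := rfl
  map_smul' _ _ := rfl

theorem TT_stab (hF : GoodF ℓ F) {e : G → F} (he : IsIdem e) {f : G → F}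
    (hf : f ∈ Pool.Agent.PP.TT F G ℓ) : actL e f ∈ Pool.Agent.PP.TT F G ℓ := by
  have brt : BrtStmt := Pool.Agent.PP.H74.brt Pool.Agent.PP.H20.ibf Pool.Agent.PP.H20.ibc
    Pool.Agent.PP.H20.ibj Pool.Agent.PP.H20.ibn
  rw [← brt ℓ F hF G] at hf ⊢
  induction hf using Submodule.span_induction with
  | mem χ hχ =>
    obtain ⟨n, ρ, hρ, rfl⟩ := hχ
    obtain ⟨w, _, hw2, _⟩ := Pool.Agent.PP.H20.eig F G n ρ hρ e he.1
    change actF e (tr ρ) ∈ _
    rw [hw2]
    exact Submodule.smul_mem _ _ (Submodule.subset_span ⟨n, ρ, hρ, rfl⟩)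
  | zero => rw [map_zero]; exact Submodule.zero_mem _
  | add f g _ _ hf hg => rw [map_add]; exact Submodule.add_mem _ hf hg
  | smul c f _ hf => rw [map_smul]; exact Submodule.smul_mem _ _ hf

theorem Rs_act (hF : GoodF ℓ F) {e : G → F} (he : IsIdem e) [Fintype (Kr ℓ G)] {f : G → F}
    (hf : f ∈ Pool.Agent.PP.TT F G ℓ) : Rs ℓ (actL e f) = (AF ℓ e).mulVec (Rs ℓ f) := by
  classical
  funext K
  set h : G → F := fun g => if Reg ℓ g then f g else 0 with hh
  set g : G → F := fun g => if Reg ℓ g then 0 else f g with hg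
  have hfg : f = h + g := by
    funext x
    rw [Pi.add_apply]
    by_cases hx : Reg ℓ x <;> simp [hh, hg, hx]
  have hrc : ∀ x y : G, Reg ℓ (y * x * y⁻¹) ↔ Reg ℓ x := fun x y =>
    (reg_conj (isConj_iff.2 ⟨y, rfl⟩)).symm
  have hfc := hf.1
  have hgc : IsCl g := by
    intro x y
    simp only [hg, hrc]
    rw [hfc]
  have h1 : actF e g (Quotient.out K.1) = 0 :=
    H74.rgl ℓ F hF G e g he hgc (fun x hx => by simp [hg, hx]) _ K.2
  change actF e f (Quotient.out K.1) = ∑ L : Kr ℓ G, AF ℓ e K L * f (Quotient.out L.1)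
  have h2 : actF e f (Quotient.out K.1) = actF e h (Quotient.out K.1) := by
    have := congrFun (map_add (actL e) h g) (Quotient.out K.1)
    rw [← hfg, Pi.add_apply] at this
    change actF e f (Quotient.out K.1) = actF e h (Quotient.out K.1) +
      actF e g (Quotient.out K.1) at this
    rw [this, h1, add_zero]
  rw [h2, actF, finsum_eq_sum_of_fintype]
  have e1 : ∀ L : Kr ℓ G, AF ℓ e K L * f (Quotient.out L.1) = ∑ y : G,
      (if ConjClasses.mk y = L.1 then e (y * (Quotient.out K.1)⁻¹) *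
        f (Quotient.out L.1) else 0) := by
    intro L
    unfold AF
    rw [Finset.sum_mul, ← Equiv.sum_comp (Equiv.mulRight (Quotient.out K.1)⁻¹)]
    refine Finset.sum_congr rfl fun y _ => ?_
    simp only [Equiv.coe_mulRight, inv_mul_cancel_right, ite_mul, zero_mul]
  rw [Finset.sum_congr rfl fun L _ => e1 L, sum_kr (fun y L => e (y * (Quotient.out K.1)⁻¹) *
        f (Quotient.out L.1)), ← Equiv.sum_comp (Equiv.mulRight (Quotient.out K.1)⁻¹)]
  refine Finset.sum_congr rfl fun y _ => ?_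
  simp only [Equiv.coe_mulRight, inv_mul_cancel_right]
  by_cases hy : Reg ℓ y
  · rw [dif_pos hy, hh]
    simp only [if_pos hy]
    rw [cl_out hfc]
  · rw [dif_neg hy, hh]
    simp only [if_neg hy, mul_zero]

theorem Rs_inj [Fact ℓ.Prime] {f : G → F} (hf : f ∈ Pool.Agent.PP.TT F G ℓ)
    (h0 : Rs ℓ f = 0) : f = 0 := by
  obtain ⟨N, hN1, hN2⟩ := H27.prt ℓ G
  funext x
  obtain ⟨h1, n, hn⟩ := hN1 x
  have hc : Commute (x ^ N) ((x ^ N)⁻¹ * x) := by
    have : Commute (x ^ N) x := (Commute.refl x).pow_left N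
    exact ((Commute.refl _).inv_right).mul_right this
  have h2 := hf.2 (x ^ N) ((x ^ N)⁻¹ * x) hc ⟨n, hn⟩
  rw [mul_inv_cancel_left] at h2
  rw [h2]
  have h3 := congrFun h0 ⟨ConjClasses.mk (x ^ N), (reg_out _).2 h1⟩
  change f (Quotient.out (ConjClasses.mk (x ^ N))) = 0 at h3
  rw [cl_out hf.1] at h3
  exact h3

theorem Rs_surj [Fact ℓ.Prime] (v : Kr ℓ G → F) :
    ∃ f ∈ Pool.Agent.PP.TT F G ℓ, Rs ℓ f = v := by
  obtain ⟨N, hN1, hN2⟩ := H27.prt ℓ G
  have hy1 : ∀ y : G, (∃ n : ℕ, y ^ ℓ ^ n = 1) → y ^ N = 1 := by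
    intro y hy
    have := hN2 1 y (Commute.one_left y) (by
      unfold Reg
      rw [orderOf_one]
      exact Nat.coprime_one_left ℓ) hy
    rwa [one_mul] at this
  refine ⟨fun x => v ⟨ConjClasses.mk (x ^ N), (reg_out _).2 (hN1 x).1⟩, ⟨?_, ?_⟩, ?_⟩
  · intro x y
    refine congrArg v (Subtype.ext ?_)
    change ConjClasses.mk ((y * x * y⁻¹) ^ N) = ConjClasses.mk (x ^ N)
    rw [conj_pow, mk_conj]
  · rintro x y hxy ⟨n, hn⟩
    refine congrArg v (Subtype.ext ?_)
    change ConjClasses.mk ((x * y) ^ N) = ConjClasses.mk (x ^ N)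
    rw [hxy.mul_pow, hy1 y ⟨n, hn⟩, mul_one]
  · funext K
    change v _ = v K
    congr 1
    apply Subtype.ext
    change ConjClasses.mk (Quotient.out K.1 ^ N) = K.1
    have h1 := hN2 (Quotient.out K.1) 1 (Commute.one_right _) K.2 ⟨0, by simp⟩
    rw [mul_one] at h1
    rw [h1, mk_out]

theorem AF_rank [Fact ℓ.Prime] (hF : GoodF ℓ F) {e : G → F} (he : IsIdem e)
    [Fintype (Kr ℓ G)] [DecidableEq (Kr ℓ G)] : (AF ℓ e).rank = ln e := by
  have h1 := K9.H3.rnk_ ℓ F hF G e he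
  have h2 : ln e = Module.finrank F ((Pool.Agent.PP.TT F G ℓ).map (actL e)) := h1.symm
  rw [h2]
  have h3 : ((Pool.Agent.PP.TT F G ℓ).map (actL e)).map (Rs ℓ) =
      LinearMap.range (AF ℓ e).mulVecLin := by
    apply le_antisymm
    · rintro _ ⟨_, ⟨f, hf, rfl⟩, rfl⟩
      exact ⟨Rs ℓ f, (Rs_act hF he hf).symm⟩
    · rintro _ ⟨v, rfl⟩
      obtain ⟨f, hf, rfl⟩ := Rs_surj v
      exact ⟨actL e f, ⟨f, hf, rfl⟩, Rs_act hF he hf⟩
  have h4 : Module.finrank F (((Pool.Agent.PP.TT F G ℓ).map (actL e)).map (Rs ℓ)) =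
      Module.finrank F ((Pool.Agent.PP.TT F G ℓ).map (actL e)) := by
    apply LinearEquiv.finrank_eq
    refine (LinearEquiv.ofBijective
      ((Rs ℓ).submoduleMap ((Pool.Agent.PP.TT F G ℓ).map (actL e))) ⟨?_, ?_⟩).symm
    · rw [← LinearMap.ker_eq_bot, LinearMap.ker_eq_bot']
      rintro ⟨f, hf⟩ h0
      have h0' : Rs ℓ f = 0 := congrArg Subtype.val h0
      obtain ⟨g, hg, rfl⟩ := hf
      exact Subtype.ext (Rs_inj (TT_stab hF he hg) h0')
    · exact LinearMap.submoduleMap_surjective _ _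
  rw [← h4, h3]
  rfl

end mod

/-- row LRK -/
theorem lrk (rot : RotStmt) : LrkStmt := by
  intro ℓ _ M _ hM G _ _ e he
  classical
  have := Fintype.ofFinite G
  have hfin : Finite (ConjClasses G) := inferInstance
  have := Fintype.ofFinite (Kr ℓ G)
  have hF : GoodF ℓ (FF M) := H50.fld ℓ Fact.out M hM
  rw [← AC_trace e]
  -- matrices over the local ring
  let P' : Matrix (Kr ℓ G) (Kr ℓ G) (RM M) := fun i j => ⟨AC M ℓ e i j, (AC_mem he i j).1⟩
  let ι : RM M →+* ℂ := (RM M).subtype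
  have hι : Function.Injective ι := Subtype.val_injective
  have hq : Function.Surjective (rrHom M) := by
    intro c
    obtain ⟨z, hz, h⟩ := rr_surj c
    exact ⟨⟨z, hz⟩, h⟩
  have eP : P'.map ι = AC M ℓ e := rfl
  have fP : P'.map (rrHom M) = AF ℓ e := by
    ext i j
    exact (AC_mem he i j).2
  have hP : AC M ℓ e * AC M ℓ e = AC M ℓ e := AC_sq rot hM he
  have hP' : P' * P' = P' := by
    ext i j
    have h1 : ((P' * P').map ι) i j = (P'.map ι) i j := by
      rw [Matrix.map_mul, eP, hP]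
    exact h1
  have hPb : AF ℓ e * AF ℓ e = AF ℓ e := by rw [← fP, ← Matrix.map_mul, hP']
  have a1 : (AF ℓ e).rank ≤ (AC M ℓ e).rank := by
    rw [← eP, ← fP]; exact KF.H48.rank_red ι hι (rrHom M) hq P'
  have a2 : (1 - AF ℓ e).rank ≤ (1 - AC M ℓ e).rank := by
    have := KF.H48.rank_red ι hι (rrHom M) hq (1 - P')
    rw [Matrix.map_sub _ (map_sub _), Matrix.map_sub _ (map_sub _), Matrix.map_one _ (map_zero ι)
      (map_one ι), Matrix.map_one _ (map_zero _) (map_one _), fP] at this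
    exact this
  have a3 := KF.H48.rank_idem_compl hPb
  have a4 := KF.H48.rank_idem_compl hP
  have a5 : (AC M ℓ e).rank = ln e := by
    rw [← AF_rank hF he]
    omega
  rw [KF.H48.trace_idem hP, a5]

end Pool.Agent.PP.T3.H43
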